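import Mathlib

/-!
# Wild automorphisms of the free Bol loop of exponent two on two generators

The question (Q1 of MP_e74ac0_al): is every automorphism of the free (right) Bol loop of exponent two
on `n` free generators a product of elementary automorphisms and their inverses?  The answer is
negative, already for `n = 2`.

Let `B` be the free (right) Bol loop of exponent two on `a`, `b`.  For `x, y` in `B` the right inner
mapping `θ x y : u ↦ ((u x) y) (x y)` is an automorphism of `B`.  The elementary automorphisms of `B`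
are given by `a ↦ a b`, `a ↦ b a`, `b ↦ b a`, `b ↦ a b`, and each of them conjugates `θ a b` to
`θ a b` or to its inverse `θ b a`.  So all tame automorphisms normalize the cyclic group
generated by `θ a b`.  The automorphism `θ x y` with `x = a`, `y = b (b (a (b (a b))))` does not
normalize this cyclic group, as can be seen in a Bol loop of exponent two with `64` elements.  So it is
not tame.

How the definitions match the problem file: `BolTwo` is the class of right Bol loops of exponent two
(unit, unique divisions, `((z x) y) x = z ((x y) x)`, `x x = 1`); `IsFreeOn` is the universal property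
of a free generating family; `subloopGen` is the generated subloop; `IsElementary` collects the
automorphisms `e_(i,v)` and `f_(i,v)`; `Tame` is the subgroup of `MulAut B` they generate.
-/

open Function

namespace Pool.Agent.Results.MP_e74ac0_al.WildAutomorphism

/-- (Right) Bol loops of exponent two. -/
class BolTwo (L : Type) extends Mul L, One L where
  one_mul' : ∀ x : L, 1 * x = x
  mul_one' : ∀ x : L, x * 1 = x
  /-- `a x = b` has a unique solution -/
  left_div : ∀ a b : L, ∃! x, a * x = b
  /-- `y a = b` has a unique solution -/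
  right_div : ∀ a b : L, ∃! y, y * a = b
  /-- the Bol identity -/
  bol : ∀ x y z : L, ((z * x) * y) * x = z * ((x * y) * x)
  /-- exponent two -/
  mul_self' : ∀ x : L, x * x = 1

/-- The family `y` is a free generating family of `B` in the variety of Bol loops of exponent two:
every map from it to a Bol loop `Q` of exponent two has a unique extension to a homomorphism
`B → Q`. (A map between loops which preserves the product preserves `1` and the divisions.) -/
def IsFreeOn {n : ℕ} {B : Type} [BolTwo B] (y : Fin n → B) : Prop :=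
  ∀ (Q : Type) [BolTwo Q] (f : Fin n → Q), ∃! φ : B →ₙ* Q, ∀ i, φ (y i) = f i

/-- Subloops: subsets containing `1` and closed under the product and both divisions. -/
def IsSubloop {B : Type} [BolTwo B] (H : Set B) : Prop :=
  (1 : B) ∈ H ∧ (∀ a ∈ H, ∀ b ∈ H, a * b ∈ H) ∧
    (∀ a ∈ H, ∀ b ∈ H, ∀ x, a * x = b → x ∈ H) ∧ ∀ a ∈ H, ∀ b ∈ H, ∀ x, x * a = b → x ∈ H

/-- The subloop generated by `S`. -/
def subloopGen {B : Type} [BolTwo B] (S : Set B) : Set B :=
  {u | ∀ H : Set B, IsSubloop H → S ⊆ H → u ∈ H}

/-- `φ` is one of the elementary automorphisms `e_(i,v)`, `f_(i,v)` with respect to the free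
generating family `y`: for some `i` and some `v` in the subloop generated by the other `y j` it maps
`y i` to `y i * v` or to `v * y i` and fixes the other `y j`. -/
def IsElementary {n : ℕ} {B : Type} [BolTwo B] (y : Fin n → B) (φ : MulAut B) : Prop :=
  ∃ (i : Fin n) (v : B), v ∈ subloopGen {u | ∃ j, j ≠ i ∧ u = y j} ∧
    (φ (y i) = y i * v ∨ φ (y i) = v * y i) ∧ ∀ j, j ≠ i → φ (y j) = y j

/-- The group of tame automorphisms. -/
def Tame {n : ℕ} {B : Type} [BolTwo B] (y : Fin n → B) : Subgroup (MulAut B) :=
  Subgroup.closure {φ | IsElementary y φ}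

section basics

variable {B : Type} [BolTwo B]

theorem o_mul (x : B) : 1 * x = x := BolTwo.one_mul' x
theorem m_one (x : B) : x * 1 = x := BolTwo.mul_one' x
theorem sq (x : B) : x * x = 1 := BolTwo.mul_self' x
theorem bolId (x y z : B) : ((z * x) * y) * x = z * ((x * y) * x) := BolTwo.bol x y z

/-- right inverse property -/
theorem rip (z x : B) : (z * x) * x = z := by
  have h := bolId x (1 : B) z
  rw [m_one, m_one, sq, m_one] at h
  exact h

theorem left_cancel {a x y : B} (h : a * x = a * y) : x = y :=
  (BolTwo.left_div a (a * y)).unique h rfl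

theorem right_cancel {a x y : B} (h : x * a = y * a) : x = y :=
  (BolTwo.right_div a (y * a)).unique h rfl

/-- right multiplications -/
def R (x : B) : Equiv.Perm B where
  toFun z := z * x
  invFun z := z * x
  left_inv z := rip z x
  right_inv z := rip z x

@[simp] theorem R_apply (x z : B) : R x z = z * x := rfl

theorem R_sq (x : B) : R x * R x = 1 := by
  ext z; simp [Equiv.Perm.mul_apply, rip]

theorem R_inv (x : B) : (R x)⁻¹ = R x := by
  rw [inv_eq_iff_mul_eq_one]; exact R_sq x

theorem R_inj {x y : B} (h : R x = R y) : x = y := by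
  have := congrArg (fun p : Equiv.Perm B => p 1) h
  simpa [o_mul] using this

/-- the right Bol identity for right multiplications (composed from right to left) -/
theorem R_bol (x y : B) : R x * R y * R x = R ((x * y) * x) := by
  ext z
  simp only [Equiv.Perm.mul_apply, R_apply]
  exact bolId x y z

/-- the conjugates of right multiplications by right multiplications -/
theorem R_conj (x y : B) : R x * R y * (R x)⁻¹ = R ((x * y) * x) := by
  rw [R_inv, R_bol]

/-- `θ x y u = ((u x) y) (x y)` -/
def theta (x y : B) : Equiv.Perm B := R (x * y) * R y * R x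

theorem theta_apply (x y u : B) : theta x y u = ((u * x) * y) * (x * y) := rfl

theorem theta_one (x y : B) : theta x y 1 = 1 := by
  rw [theta_apply, o_mul, sq]

/-- `R (y x)` in terms of `R x`, `R y`, `R (x y)` -/
theorem R_swap (x y : B) : R x * (R y * R (x * y) * R y) * R x = R (y * x) := by
  rw [R_bol, R_bol]
  congr 1
  rw [← bolId y (x * y) x, sq, o_mul]

/-- `θ y x` is the inverse of `θ x y` -/
theorem theta_swap (x y : B) : theta y x = (theta x y)⁻¹ := by
  unfold theta
  rw [← R_swap x y, mul_inv_rev, mul_inv_rev, R_inv, R_inv, R_inv]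
  have h2 := R_sq x
  have h3 := R_sq y
  calc R x * (R y * R (x * y) * R y) * R x * R x * R y
      = R x * R y * R (x * y) * R y * (R x * R x) * R y := by group
    _ = R x * R y * R (x * y) * (R y * R y) := by rw [h2]; group
    _ = R x * (R y * R (x * y)) := by rw [h3]; group

/-- `θ x (x y) = θ x y` -/
theorem theta_left (x y : B) : theta x (x * y) = theta x y := by
  have h : R (x * y) * R y * R (x * y) = R (x * (x * y)) := by
    rw [R_bol, rip]
  unfold theta
  rw [← h]
  have h2 := R_sq (x * y)
  calc R (x * y) * R y * R (x * y) * R (x * y) * R x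
      = R (x * y) * R y * (R (x * y) * R (x * y)) * R x := by group
    _ = R (x * y) * R y * R x := by rw [h2]; group

/-- `θ y (x y) = θ x y` -/
theorem theta_right (x y : B) : theta y (x * y) = theta x y := by
  have hx : (x * y) * y = x := rip x y
  have h := R_swap y (x * y)
  rw [hx] at h
  have h2 := R_sq (x * y)
  have h3 := R_sq y
  unfold theta
  rw [← h]
  symm
  calc R (x * y) * R y * (R y * (R (x * y) * R (y * (x * y)) * R (x * y)) * R y)
      = R (x * y) * (R y * R y) * R (x * y) * R (y * (x * y)) * R (x * y) * R y := by group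
    _ = (R (x * y) * R (x * y)) * R (y * (x * y)) * R (x * y) * R y := by rw [h3]; group
    _ = R (y * (x * y)) * R (x * y) * R y := by rw [h2]; group

/-- The right inner mapping `θ x y` is an automorphism. -/
theorem theta_hom (x y u v : B) : theta x y (u * v) = theta x y u * theta x y v := by
  have key : R (theta x y v) = theta x y * R v * (theta x y)⁻¹ := by
    have h : theta x y * R v * (theta x y)⁻¹
        = R (x * y) * (R y * (R x * R v * R x) * R y) * R (x * y) := by
      unfold theta
      rw [mul_inv_rev, mul_inv_rev, R_inv, R_inv, R_inv]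
      group
    rw [h, R_bol, R_bol, R_bol]
    congr 1
    have e : ∀ s t : B, R s * R t * R s = R ((s * t) * s) := R_bol
    have h1 : R ((x * y * (y * (x * v * x) * y)) * (x * y)) = theta x y * R v * (theta x y)⁻¹ := by
      rw [h, R_bol, R_bol, R_bol]
    have h2 := congrArg (fun p : Equiv.Perm B => p 1) h1
    simp only [R_apply, o_mul, Equiv.Perm.mul_apply] at h2
    rw [h2]
    have h3 : (theta x y)⁻¹ (1 : B) = 1 := by
      rw [Equiv.Perm.inv_eq_iff_eq]; exact (theta_one x y).symm
    rw [h3, o_mul]
  have h := congrArg (fun p : Equiv.Perm B => p (theta x y u)) key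
  simp only [R_apply, Equiv.Perm.mul_apply] at h
  have h4 : (theta x y)⁻¹ (theta x y u) = u := (theta x y).symm_apply_apply u
  rw [h4] at h
  exact h.symm

/-- the automorphism `θ x y` -/
def thetaAut (x y : B) : MulAut B where
  toEquiv := theta x y
  map_mul' u v := theta_hom x y u v

@[simp] theorem thetaAut_apply (x y u : B) : thetaAut x y u = ((u * x) * y) * (x * y) := rfl

theorem map_theta {C : Type} [BolTwo C] (φ : B →ₙ* C) (x y u : B) :
    φ (theta x y u) = theta (φ x) (φ y) (φ u) := by
  simp only [theta_apply, map_mul]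

/-- the property of tame automorphisms -/
def Norm (a b : B) (φ : MulAut B) : Prop :=
  theta (φ a) (φ b) = theta a b ∨ theta (φ a) (φ b) = theta b a

theorem norm_iff (a b : B) (φ : MulAut B) :
    Norm a b φ ↔ (φ.toEquiv * theta a b * φ.toEquiv⁻¹ = theta a b ∨
      φ.toEquiv * theta a b * φ.toEquiv⁻¹ = (theta a b)⁻¹) := by
  have h : theta (φ a) (φ b) = φ.toEquiv * theta a b * φ.toEquiv⁻¹ := by
    ext u
    obtain ⟨w, rfl⟩ := φ.surjective u
    have := map_theta (φ : B →ₙ* B) a b w
    simp only [Equiv.Perm.mul_apply]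
    have h1 : (φ.toEquiv⁻¹ : Equiv.Perm B) (φ w) = w := φ.toEquiv.symm_apply_apply w
    rw [h1]
    exact this.symm
  unfold Norm
  rw [h, theta_swap a b]

theorem norm_mem (a b : B) (φ : MulAut B) :
    φ ∈ {φ : MulAut B | Norm a b φ} ↔ (φ.toEquiv * theta a b * φ.toEquiv⁻¹ = theta a b ∨
      φ.toEquiv * theta a b * φ.toEquiv⁻¹ = (theta a b)⁻¹) := norm_iff a b φ

/-- the automorphisms which normalize the group generated by `θ a b` -/
def normSub (a b : B) : Subgroup (MulAut B) where
  carrier := {φ | Norm a b φ}
  one_mem' := Or.inl rfl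
  mul_mem' := by
    intro φ ψ hφ hψ
    rw [norm_mem] at *
    have e : (φ * ψ).toEquiv = φ.toEquiv * ψ.toEquiv := rfl
    rw [e, mul_inv_rev]
    have key : φ.toEquiv * ψ.toEquiv * theta a b * (ψ.toEquiv⁻¹ * φ.toEquiv⁻¹)
        = φ.toEquiv * (ψ.toEquiv * theta a b * ψ.toEquiv⁻¹) * φ.toEquiv⁻¹ := by group
    rw [key]
    rcases hψ with h | h
    · rw [h]; exact hφ
    · rw [h]
      have k2 : φ.toEquiv * (theta a b)⁻¹ * φ.toEquiv⁻¹
          = (φ.toEquiv * theta a b * φ.toEquiv⁻¹)⁻¹ := by group
      rw [k2]
      rcases hφ with h' | h'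
      · right; rw [h']
      · left; rw [h', inv_inv]
  inv_mem' := by
    intro φ hφ
    rw [norm_mem] at *
    have e : (φ⁻¹).toEquiv = φ.toEquiv⁻¹ := rfl
    rw [e, inv_inv]
    rcases hφ with h | h
    · left
      have : theta a b = φ.toEquiv⁻¹ * (φ.toEquiv * theta a b * φ.toEquiv⁻¹) * φ.toEquiv := by group
      rw [h] at this
      exact this.symm
    · right
      have : (theta a b)⁻¹
          = (φ.toEquiv⁻¹ * (φ.toEquiv * theta a b * φ.toEquiv⁻¹) * φ.toEquiv)⁻¹ := by group
      rw [h] at this
      rw [this]; group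

theorem mem_pair {b v : B} {S : Set B} (hS : S ⊆ {1, b}) (hv : v ∈ subloopGen S) :
    v = 1 ∨ v = b := by
  have hsub : IsSubloop ({1, b} : Set B) := by
    refine ⟨Or.inl rfl, ?_, ?_, ?_⟩
    · rintro x (rfl | rfl) y (rfl | rfl)
      · left; exact m_one _
      · right; exact o_mul _
      · right; exact m_one _
      · left; exact sq _
    · rintro x (rfl | rfl) y (rfl | rfl) z hz
      · left; rw [← hz, o_mul]
      · right; rw [← hz, o_mul]; rfl
      · right
        apply left_cancel (a := x)
        rw [hz, sq]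
      · left
        apply left_cancel (a := y)
        rw [hz, m_one]
    · rintro x (rfl | rfl) y (rfl | rfl) z hz
      · left; rw [← hz, m_one]
      · right; rw [← hz, m_one]; rfl
      · right
        apply right_cancel (a := x)
        rw [hz, sq]
      · left
        apply right_cancel (a := y)
        rw [hz, o_mul]
  exact hv _ hsub hS

/-- elementary automorphisms normalize the group generated by `θ a b` -/
theorem elementary_norm (y : Fin 2 → B) (φ : MulAut B) (h : IsElementary y φ) :
    Norm (y 0) (y 1) φ := by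
  obtain ⟨i, v, hv, hi, hj⟩ := h
  have hcases : i = 0 ∨ i = 1 := by omega
  rcases hcases with rfl | rfl
  · have h1 : φ (y 1) = y 1 := hj 1 (by decide)
    have hv' : v = 1 ∨ v = y 1 := by
      refine mem_pair ?_ hv
      rintro u ⟨j, hj, rfl⟩
      have : j = 1 := by omega
      rw [this]; right; rfl
    unfold Norm
    rw [h1]
    rcases hv' with rfl | rfl
    · have : φ (y 0) = y 0 := by rcases hi with h | h <;> simpa [m_one, o_mul] using h
      left; rw [this]
    · rcases hi with h | h
      · -- `(a b, b)`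
        right
        rw [h, theta_swap (y 1) (y 0 * y 1), theta_right, theta_swap (y 0) (y 1)]
      · -- `(b a, b)`
        left
        rw [h, theta_swap (y 1) (y 1 * y 0), theta_left, theta_swap (y 0) (y 1), inv_inv]
  · have h1 : φ (y 0) = y 0 := hj 0 (by decide)
    have hv' : v = 1 ∨ v = y 0 := by
      refine mem_pair ?_ hv
      rintro u ⟨j, hj, rfl⟩
      have : j = 0 := by omega
      rw [this]; right; rfl
    unfold Norm
    rw [h1]
    rcases hv' with rfl | rfl
    · have : φ (y 1) = y 1 := by rcases hi with h | h <;> simpa [m_one, o_mul] using h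
      left; rw [this]
    · rcases hi with h | h
      · -- `(a, b a)`
        right
        rw [h, theta_right]
      · -- `(a, a b)`
        left
        rw [h, theta_left]

theorem tame_norm (y : Fin 2 → B) (φ : MulAut B) (h : φ ∈ Tame y) : Norm (y 0) (y 1) φ := by
  have hle : Tame y ≤ normSub (y 0) (y 1) := by
    unfold Tame
    rw [Subgroup.closure_le]
    intro ψ hψ
    exact elementary_norm y ψ hψ
  exact hle h

end basics

section model

/-- the multiplication table of a Bol loop of exponent two with `64` elements -/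
def tbl : ℕ := 0x108310518720928b30d38f45049355459765869b75c79f8a38609649a7aeaa29b6cbafd74db7c70cb3e78ebbf3dfbf0400c21441c62482ca34c3ce4114d25155d66196da71d7de8e28219259e6aaba68b2dbeed35df6c31cf2e39efaf7cffe08300118710528b20938f30d49345059755469b65879f75c8218e29e6925a68aabbeeb2ddf6d35cf2c31efae39fbff3d0c20401c61442ca2483ce34c4d24115d65156da6197de71d8608a39a7964a29aeabafb6cdb7d74cb3c70ebbe78ffef7c10518700108330d38f20928b55459745049375c79f65869b9a79648608a3beeb2da68aabc70cb3d74db7f7cfbfe39ebb1441c60400c234c3ce2482ca5155d64114d271d7de6196da9e69258218e2bafb6ca29aeac31cf2d35df6f3dffee78efa18710508300138f30d28b20959755449345079f75c69b6589259e68e2821b6cbafaeaa29cf2c31df6d35ffef3debbe391c61440c20403ce34c2ca2485d65154d24117de71d6da6199649a78a3860b2dbeeaaba68cb3c70db7d74fbff7cefae7820928b30d38f00108310518765869b75c79f450493554597aaba68b6cbaf8e28219649a7f7cfbfe78ebbc70cb3d35db72482ca34c3ce0400c21441c66196da71d7de4114d25155d6aeaa29b2dbee8a38609259e6f3dffee39efac31cf2d74df628b20938f30d08300118710569b65879f75c493450597554a29aeabeeb2d8608a39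e6925ffef3defae39cf2c31db7d352ca2483ce34c0c20401c61446da6197de71d4d24115d6515a68aabbafb6c8218e29a7964fbff7cebbe78cb3c70df6d7430d38f20928b10518700108375c79f65869b554597450493bafb6ca68aab9e69258608a3e78ebbf7cfbfd74db7c31cb334c3ce2482ca1441c60400c271d7de6196da5155d64114d2beeb2da29aea9a79648218e2e39efaf3dffed35df6c70cf238f30d28b20918710508300179f75c69b658597554493450b2dbeeaeaa299649a78e2821efae39ffef3ddf6d35cb3c313ce34c2ca2481c61440c20407de71d6da6195d65154d2411b6cbafaaba689259e68a3860ebbe78fbff7cdb7d74cf2c7061969b71d79f4114935155970010c21051c62092ca30d3cecb3c70d74db7efae39f7cfbf9259a78218a3a29aabb2dbaf6586da75c7de4504d25545d604008314418724828b34c38fcf2c31d35df6ebbe78f3dffe9649e68608e2a68aeab6cbee69b61979f71d4934115975150c20011c61052ca2093ce30dc31cf2df6d35e78ebbffef3d9a79258a3821aaba29bafb2d6da6587de75c4d24505d655408304018714428b24838f34cc70cb3db7d74e39efafbff7c9e69648e2860aeaa68beeb6c71d79f61969b5155974114931051c60010c230d3ce2092cadb7d74c70cb3ffef3de78ebb8218a39259a7b2dbafa29aab75c7de6586da5545d64504d214418704008334c38f24828bdf6d35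c31cf2fbff7ce39efa8608e29649e6b6cbeea68aea79f71d69b6195975154934111c61050c20013ce30d2ca209d35df6cf2c31f7cfbfefae398a38219a7925bafb2daaba297de75c6da6585d65544d245018714408304038f34c28b248d74db7cb3c70f3dffeebbe788e28609e6964beeb6caeaa6841149351559761969b71d79f2092ca30d3ce0010c21051c6ebbe78f7cfbfcf2c31d74db7b2dbafa29aab8218a39259a74504d25545d66586da75c7de24828b34c38f040083144187efae39f3dffecb3c70d35df6b6cbeea68aea8608e29649e649341159751569b61979f71d2ca2093ce30d0c20011c6105e39efaffef3dc70cb3df6d35bafb2daaba298a38219a79254d24505d65546da6587de75c28b24838f34c083040187144e78ebbfbff7cc31cf2db7d74beeb6caeaa688e28609e696451559741149371d79f61969b30d3ce2092ca1051c60010c2fbff7ce78ebbdf6d35c70cb3a29aabb2dbaf9259a78218a35545d64504d275c7de6586da34c38f24828b144187040083ffef3de39efadb7d74c31cf2a68aeab6cbee9649e68608e259751549341179f71d69b6193ce30d2ca2091c61050c2001f3dffeefae39d74db7cf2c31aaba29bafb2d9a79258a38215d65544d24507de75c6da65838f34c28b248187144083040f7cfbfebbe78d35df6cb3c70aeaa68beeb6c9e69648e2860a29aabb2dbaf8218a39259a7c31cb3d35db7e39eb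bf3dfbf00108310518720928b30d38f45049355459765869b71d79fa68aeab6cbee8608e29649e6c70cf2d74df6e78efaf7cffe0400c21441c62482ca34c3ce4114d25155d66196da75c7deaaba29bafb2d8a38219a7925cf2c70df6d74efae78ffef7c08300118710528b20938f30d4d24115d65156da61979f71daeaa68beeb6c8e28609e6964cb3c31db7d35ebbe39fbff3d0c20401c61442ca2483ce34c49345059755469b6587de75cb2dbafa29aab9259a78218a3d35db7c31cb3f3dfbfe39ebb10518700108330d38f20928b55459745049375c79f61969bb6cbeea68aea9649e68608e2d74df6c70cf2f7cffee78efa1441c60400c234c3ce2482ca5155d64114d271d7de6586dabafb2daaba299a79258a3821df6d74cf2c70ffef7cefae7818710508300138f30d28b2095d65154d24117de71d69b619beeb6caeaa689e69648e2860db7d35cb3c31fbff3debbe391c61440c20403ce34c2ca24859755449345079f75c6da6588218a39259a7a29aabb2dbafe39ebbf3dfbfc31cb3d35db720928b30d38f00108310518765869b75c79f4504935155978608e29649e6a68aeab6cbeee78efaf7cffec70cf2d74df62482ca34c3ce0400c21441c66196da71d7de4114d25545d68a38219a7925aaba29bafb2defae78ffef7ccf2c70df6d7428b20938f30d0830011871056da6197de71d4d24115975158e28609e6964aeaa68beeb6cebbe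39fbff3dcb3c31db7d352ca2483ce34c0c20401c614469b65879f75c4934505d65549259a78218a3b2dbafa29aabf3dfbfe39ebbd35db7c31cb330d38f20928b10518700108375c79f65869b5545974114939649e68608e2b6cbeea68aeaf7cffee78efad74df6c70cf234c3ce2482ca1441c60400c271d7de6196da5155d64504d29a79258a3821bafb2daaba29ffef7cefae78df6d74cf2c7038f30d28b2091871050830017de71d6da6195d65154934119e69648e2860beeb6caeaa68fbff3debbe39db7d35cb3c313ce34c2ca2481c61440c204079f75c69b6585975544d2450c31cb3d35db7e39ebbf3dfbf8608e29649e6a68aeab6cbee41149351559761969b71d79f00108310518720928b30d38fc70cf2d74df6e78efaf7cffe8218a39259a7a29aabb2dbaf4504d25545d66586da75c7de0400c21441c62482ca34c3cecb3c31db7d35ebbe39fbff3d8a38219a7925aaba29bafb2d49341159751569b61979f71d08300118710528b20938f30dcf2c70df6d74efae78ffef7c8e28609e6964aeaa68beeb6c4d24505d65546da6587de75c0c20401c61442ca2483ce34cd35db7c31cb3f3dfbfe39ebb9649e68608e2b6cbeea68aea51559741149371d79f61969b10518700108330d38f20928bd74df6c70cf2f7cffee78efa9259a78218a3b2dbafa29aab5545d64504d275c7de6586da1441c60400c234c3ce2482cadb7d35cb3c31fbf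f3debbe399a79258a3821bafb2daaba2959751549341179f71d69b61918710508300138f30d28b209df6d74cf2c70ffef7cefae789e69648e2860beeb6caeaa685d65544d24507de75c6da6581c61440c20403ce34c2ca248e39ebbf3dfbfc31cb3d35db7a68aeab6cbee8608e29649e661969b71d79f41149351559720928b30d38f001083105187e78efaf7cffec70cf2d74df6a29aabb2dbaf8218a39259a76586da75c7de4504d25545d62482ca34c3ce0400c21441c6ebbe39fbff3dcb3c31db7d35aaba29bafb2d8a38219a792569b61979f71d49341159751528b20938f30d083001187105efae78ffef7ccf2c70df6d74aeaa68beeb6c8e28609e69646da6587de75c4d24505d65542ca2483ce34c0c20401c6144f3dfbfe39ebbd35db7c31cb3b6cbeea68aea9649e68608e271d79f61969b51559741149330d38f20928b105187001083f7cffee78efad74df6c70cf2b2dbafa29aab9259a78218a375c7de6586da5545d64504d234c3ce2482ca1441c60400c2fbff3debbe39db7d35cb3c31bafb2daaba299a79258a382179f71d69b61959751549341138f30d28b209187105083001ffef7cefae78df6d74cf2c70beeb6caeaa689e69648e28607de75c6da6585d65544d24503ce34c2ca2481c61440c2040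

def mm (x y : ℕ) : ℕ := (tbl >>> (6 * (64 * x + y))) % 64

def allB (f : ℕ → Bool) (n : ℕ) : Bool := Nat.rec true (fun i r => (f i) && r) n

theorem allB_spec (f : ℕ → Bool) : ∀ n, allB f n = true → ∀ i < n, f i = true := by
  intro n
  induction n with
  | zero => intro _ i hi; omega
  | succ n ih =>
    intro h i hi
    have h' : (f n && allB f n) = true := h
    rw [Bool.and_eq_true] at h'
    rcases Nat.lt_succ_iff_lt_or_eq.1 hi with h1 | h1
    · exact ih h'.2 i h1
    · rw [h1]; exact h'.1

def chkBol : Bool :=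
  allB (fun x => allB (fun y => allB (fun z =>
    Nat.beq (mm (mm (mm z x) y) x) (mm z (mm (mm x y) x))) 64) 64) 64

theorem chkBol_true : chkBol = true := by decide +kernel

def chkUnit : Bool :=
  allB (fun x => Nat.beq (mm 0 x) x && (Nat.beq (mm x 0) x && Nat.beq (mm x x) 0)) 64

theorem chkUnit_true : chkUnit = true := by decide +kernel

/-- left translations are injective: `x z = y z` implies ... -/
def chkInj : Bool :=
  allB (fun x => allB (fun y => allB (fun z =>
    Nat.beq y z || !(Nat.beq (mm x y) (mm x z))) 64) 64) 64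

theorem chkInj_true : chkInj = true := by decide +kernel

theorem mm_lt (x y : ℕ) : mm x y < 64 := Nat.mod_lt _ (by decide)

/-- the Bol loop of exponent two with `64` elements -/
def Q : Type := Fin 64

instance : DecidableEq Q := inferInstanceAs (DecidableEq (Fin 64))

instance : Finite Q := inferInstanceAs (Finite (Fin 64))

/-- elements of `Q` -/
def el (x : ℕ) : Q := ⟨x % 64, Nat.mod_lt _ (by decide)⟩

def qmul (x y : Q) : Q := ⟨mm x.1 y.1, mm_lt _ _⟩

theorem q_bol (x y z : Q) : qmul (qmul (qmul z x) y) x = qmul z (qmul (qmul x y) x) := by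
  apply Fin.ext
  exact Nat.eq_of_beq_eq_true
    (allB_spec _ _ (allB_spec _ _ (allB_spec _ _ chkBol_true x.1 x.2) y.1 y.2) z.1 z.2)

theorem q_unit (x : Q) : qmul (el 0) x = x ∧ qmul x (el 0) = x ∧ qmul x x = el 0 := by
  have h := allB_spec _ _ chkUnit_true x.1 x.2
  simp only [Bool.and_eq_true] at h
  exact ⟨Fin.ext (Nat.eq_of_beq_eq_true h.1), Fin.ext (Nat.eq_of_beq_eq_true h.2.1),
    Fin.ext (Nat.eq_of_beq_eq_true h.2.2)⟩

theorem q_inj (x y z : Q) (h : qmul x y = qmul x z) : y = z := by
  have h1 := allB_spec _ _ (allB_spec _ _ (allB_spec _ _ chkInj_true x.1 x.2) y.1 y.2) z.1 z.2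
  simp only [Bool.or_eq_true, Bool.not_eq_true'] at h1
  rcases h1 with h1 | h1
  · exact Fin.ext (Nat.eq_of_beq_eq_true h1)
  · exfalso
    have h2 : mm x.1 y.1 = mm x.1 z.1 := congrArg Fin.val h
    rw [h2] at h1
    have h3 : Nat.beq (mm x.1 z.1) (mm x.1 z.1) = true := Nat.beq_refl _
    rw [h3] at h1
    exact Bool.noConfusion h1

theorem q_rip (z x : Q) : qmul (qmul z x) x = z := by
  have h := q_bol x (el 0) z
  rw [(q_unit x).2.1, (q_unit x).2.2, (q_unit z).2.1, (q_unit (qmul z x)).2.1] at h
  exact h

instance qBol : BolTwo Q where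
  mul := qmul
  one := el 0
  one_mul' x := (q_unit x).1
  mul_one' x := (q_unit x).2.1
  left_div a b := by
    have hinj : Function.Injective (qmul a) := fun y z h => q_inj a y z h
    have hsurj := Finite.surjective_of_injective hinj
    obtain ⟨x, hx⟩ := hsurj b
    exact ⟨x, hx, fun y hy => hinj (hy.trans hx.symm)⟩
  right_div a b := ⟨qmul b a, q_rip b a, fun y hy => by
    have : qmul (qmul y a) a = qmul b a := congrArg (fun t => qmul t a) hy
    rw [q_rip] at this
    exact this⟩
  bol x y z := q_bol x y z
  mul_self' x := (q_unit x).2.2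

end model

section free

/-- terms -/
inductive Term (n : ℕ) : Type
  | var : Fin n → Term n
  | one : Term n
  | mul : Term n → Term n → Term n
  | ldiv : Term n → Term n → Term n
  | rdiv : Term n → Term n → Term n

/-- left division in a Bol loop of exponent two -/
noncomputable def ld {B : Type} [BolTwo B] (a b : B) : B := (BolTwo.left_div a b).choose
noncomputable def rd {B : Type} [BolTwo B] (b a : B) : B := (BolTwo.right_div a b).choose

theorem mul_ld {B : Type} [BolTwo B] (a b : B) : a * ld a b = b :=
  (BolTwo.left_div a b).choose_spec.1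
theorem rd_mul {B : Type} [BolTwo B] (b a : B) : rd b a * a = b :=
  (BolTwo.right_div a b).choose_spec.1

noncomputable def ev {n : ℕ} {Q : Type} [BolTwo Q] (f : Fin n → Q) : Term n → Q
  | .var i => f i
  | .one => 1
  | .mul s t => ev f s * ev f t
  | .ldiv s t => ld (ev f s) (ev f t)
  | .rdiv s t => rd (ev f s) (ev f t)

def tsetoid (n : ℕ) : Setoid (Term n) where
  r s t := ∀ (Q : Type) [BolTwo Q] (f : Fin n → Q), ev f s = ev f t
  iseqv := ⟨fun _ _ _ _ => rfl, fun h Q _ f => (h Q f).symm, fun h k Q _ f => (h Q f).trans (k Q f)⟩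

/-- the free Bol loop of exponent two -/
def Free (n : ℕ) : Type := Quotient (tsetoid n)

namespace Free

variable {n : ℕ}

def mk (t : Term n) : Free n := Quotient.mk (tsetoid n) t

theorem mk_eq {s t : Term n} :
    mk s = mk t ↔ ∀ (Q : Type) [BolTwo Q] (f : Fin n → Q), ev f s = ev f t :=
  ⟨fun h => Quotient.exact h, fun h => Quotient.sound h⟩

def fmul (x y : Free n) : Free n :=
  Quotient.map₂ Term.mul (fun _ _ h _ _ k Q _ f => by
    show ev f _ * ev f _ = ev f _ * ev f _
    rw [h Q f, k Q f]) x y

theorem fmul_mk (s t : Term n) : fmul (mk s) (mk t) = mk (.mul s t) := rfl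

theorem ind {p : Free n → Prop} (h : ∀ t, p (mk t)) (x : Free n) : p x := Quotient.ind h x

instance : BolTwo (Free n) where
  mul := fmul
  one := mk .one
  one_mul' := ind fun t => by
    show fmul (mk .one) (mk t) = mk t
    rw [fmul_mk, mk_eq]; intro Q _ f; exact o_mul _
  mul_one' := ind fun t => by
    show fmul (mk t) (mk .one) = mk t
    rw [fmul_mk, mk_eq]; intro Q _ f; exact m_one _
  left_div := ind fun s => ind fun t => by
    refine ⟨mk (.ldiv s t), ?_, ?_⟩
    · show fmul (mk s) (mk (.ldiv s t)) = mk t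
      rw [fmul_mk, mk_eq]; intro Q _ f; exact mul_ld _ _
    · refine ind fun u hu => ?_
      have hu' : fmul (mk s) (mk u) = mk t := hu
      rw [fmul_mk, mk_eq] at hu'
      rw [mk_eq]; intro Q _ f
      apply left_cancel (a := ev f s)
      exact (hu' Q f).trans (mul_ld _ _).symm
  right_div := ind fun s => ind fun t => by
    refine ⟨mk (.rdiv t s), ?_, ?_⟩
    · show fmul (mk (.rdiv t s)) (mk s) = mk t
      rw [fmul_mk, mk_eq]; intro Q _ f; exact rd_mul _ _
    · refine ind fun u hu => ?_
      have hu' : fmul (mk u) (mk s) = mk t := hu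
      rw [fmul_mk, mk_eq] at hu'
      rw [mk_eq]; intro Q _ f
      apply right_cancel (a := ev f s)
      exact (hu' Q f).trans (rd_mul _ _).symm
  bol := ind fun s => ind fun t => ind fun u => by
    show fmul (fmul (fmul (mk u) (mk s)) (mk t)) (mk s)
      = fmul (mk u) (fmul (fmul (mk s) (mk t)) (mk s))
    simp only [fmul_mk]
    rw [mk_eq]; intro Q _ f; exact bolId _ _ _
  mul_self' := ind fun t => by
    show fmul (mk t) (mk t) = mk .one
    rw [fmul_mk, mk_eq]; intro Q _ f; exact sq _

theorem mul_def (x y : Free n) : x * y = fmul x y := rfl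

/-- evaluation homomorphism -/
noncomputable def lift {Q : Type} [BolTwo Q] (f : Fin n → Q) : Free n →ₙ* Q where
  toFun := Quotient.lift (fun t => ev f t) (fun _ _ h => h Q f)
  map_mul' := ind fun _ => ind fun _ => rfl

theorem lift_mk {Q : Type} [BolTwo Q] (f : Fin n → Q) (t : Term n) : lift f (mk t) = ev f t := rfl

end Free

theorem hom_one {B C : Type} [BolTwo B] [BolTwo C] (φ : B →ₙ* C) : φ 1 = 1 := by
  apply left_cancel (a := φ 1)
  rw [← map_mul, o_mul, m_one]

theorem free_isFree (n : ℕ) : IsFreeOn (fun i : Fin n => Free.mk (.var i)) := by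
  intro Q _ f
  refine ⟨Free.lift f, fun i => rfl, ?_⟩
  intro φ hφ
  apply MulHom.ext
  refine Free.ind fun t => ?_
  rw [Free.lift_mk]
  induction t with
  | var i => exact hφ i
  | one => exact hom_one φ
  | mul s t hs ht =>
    have h : Free.mk (.mul s t) = Free.mk s * Free.mk t := rfl
    rw [h, map_mul, hs, ht]; rfl
  | ldiv s t hs ht =>
    apply left_cancel (a := ev f s)
    have h : Free.mk s * Free.mk (.ldiv s t) = Free.mk t := by
      rw [Free.mul_def, Free.fmul_mk, Free.mk_eq]; intro Q _ f; exact mul_ld _ _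
    rw [← hs, ← map_mul, h, ht, hs]
    exact (mul_ld _ _).symm
  | rdiv s t hs ht =>
    apply right_cancel (a := ev f t)
    have h : Free.mk (.rdiv s t) * Free.mk t = Free.mk s := by
      rw [Free.mul_def, Free.fmul_mk, Free.mk_eq]; intro Q _ f; exact rd_mul _ _
    rw [← ht, ← map_mul, h, hs, ht]
    exact (rd_mul _ _).symm

end free

/-- the automorphism `θ x y`, `x = a`, `y = b (b (a (b (a b))))`, is not tame -/
theorem wild (B : Type) [BolTwo B] (y : Fin 2 → B) (hy : IsFreeOn y) :
    thetaAut (y 0) (y 1 * (y 1 * (y 0 * (y 1 * (y 0 * y 1))))) ∉ Tame y := by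
  intro hmem
  have hn := tame_norm y _ hmem
  obtain ⟨π, hπ, -⟩ := hy Q ![el 16, el 32]
  have h0 : π (y 0) = el 16 := hπ 0
  have h1 : π (y 1) = el 32 := hπ 1
  have hm : ∀ s t : B, π (s * t) = π s * π t := fun s t => map_mul π s t
  unfold Norm at hn
  rcases hn with hn | hn
  · have h : theta _ _ (y 1) = theta _ _ (y 1) := congrArg (fun p : Equiv.Perm B => p (y 1)) hn
    have h' := congrArg (fun t => π t) h
    simp only [theta_apply, thetaAut_apply, hm, h0, h1] at h'
    revert h'
    show ¬ _
    decide +kernel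
  · have h : theta _ _ (y 1) = theta _ _ (y 1) := congrArg (fun p : Equiv.Perm B => p (y 1)) hn
    have h' := congrArg (fun t => π t) h
    simp only [theta_apply, thetaAut_apply, hm, h0, h1] at h'
    revert h'
    show ¬ _
    decide +kernel

/-- **Not all automorphisms of free Bol loops of exponent two are tame.** For every `n` there is a free Bol
loop of exponent two on `n` free generators, and each one on two free generators `a = y 0`,
`b = y 1` has an automorphism that is not in the group generated by the elementary automorphisms,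
namely the right inner mapping `u ↦ ((u a) c) (a c)` with `c = b (b (a (b (a b))))`. -/
theorem result :
    (∀ n : ℕ, ∃ (B : Type) (_ : BolTwo B) (y : Fin n → B), IsFreeOn y) ∧
    ∀ (B : Type) [BolTwo B] (y : Fin 2 → B), IsFreeOn y →
      ∃ φ : MulAut B, (∀ u, φ u = (u * y 0 * (y 1 * (y 1 * (y 0 * (y 1 * (y 0 * y 1)))))) *
        (y 0 * (y 1 * (y 1 * (y 0 * (y 1 * (y 0 * y 1))))))) ∧ φ ∉ Tame y :=
  ⟨fun n => ⟨Free n, inferInstance, _, free_isFree n⟩,
    fun B _ y hy => ⟨thetaAut (y 0) (y 1 * (y 1 * (y 0 * (y 1 * (y 0 * y 1))))), fun _ => rfl,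
      wild B y hy⟩⟩

end Pool.Agent.Results.MP_e74ac0_al.WildAutomorphism
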